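import Pool.Agent.H942R3.KK.Stmts3

/-! Task Bal: connected vertex-transitive graphs are balanced. -/

set_option autoImplicit false

namespace Pool.Agent.H942R3.KK

open Finset

namespace BalH405

theorem edges_le {V V' : Type} [Finite V'] (G : SimpleGraph V) (G' : SimpleGraph V')
    (φ : V → V') (hφ : Function.Injective φ) (h : ∀ x y, G.Adj x y → G'.Adj (φ x) (φ y)) :
    G.edgeSet.ncard ≤ G'.edgeSet.ncard := by
  apply Set.ncard_le_ncard_of_injOn (Sym2.map φ)
  · intro e he
    induction e using Sym2.ind with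
    | _ x y =>
      rw [Sym2.map_mk]
      exact h x y he
  · exact (Sym2.map.injective hφ).injOn

end BalH405

open BalH405 in
theorem taskBal : TaskMader → TaskDegB → TaskBal := by
  intro hM hD V0 _ G0 d hc0 hvt hdeg V _ G hc g hg hadj
  have : Nonempty V := hc.nonempty
  have hS : (Set.range g).ncard = Fintype.card V := by
    rw [← Set.image_univ, Set.ncard_image_of_injective _ hg, Set.ncard_univ,
      Nat.card_eq_fintype_card]
  have h1 : G.edgeSet.ncard ≤ (G0.induce (Set.range g)).edgeSet.ncard :=
    edges_le G (G0.induce (Set.range g)) (fun x => ⟨g x, x, rfl⟩)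
      (fun x y hxy => hg (congrArg Subtype.val hxy)) (fun x y hxy => hadj x y hxy)
  have h0 : G.edgeSet.ncard ≤ G0.edgeSet.ncard := edges_le G G0 g hg hadj
  have h2 : (G0.induce Set.univ).edgeSet.ncard ≤ G0.edgeSet.ncard :=
    edges_le (G0.induce Set.univ) G0 Subtype.val Subtype.val_injective (fun x y hxy => hxy)
  have hn : 1 ≤ Fintype.card V := Fintype.card_pos
  by_cases hu : Set.range g = Set.univ
  · have hcard : Fintype.card V = Fintype.card V0 := by
      rw [← hS, hu, Set.ncard_univ, Nat.card_eq_fintype_card]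
    rw [hcard]
    exact Nat.mul_le_mul_right _ h0
  · have h3 := hM V0 G0 d hc0 hvt hdeg (Set.range g) (Set.range_nonempty g) hu
    have h4 := hD V0 G0 d hdeg (Set.range g)
    have h5 := hD V0 G0 d hdeg Set.univ
    have hb : bd G0 Set.univ = 0 := by
      unfold bd
      have : {e : V0 × V0 | e.1 ∈ (Set.univ : Set V0) ∧ e.2 ∉ (Set.univ : Set V0) ∧
          G0.Adj e.1 e.2} = ∅ := by
        ext e
        simp
      rw [this, Set.ncard_empty]
    rw [hb, add_zero, Set.ncard_univ, Nat.card_eq_fintype_card] at h5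
    rw [hS] at h4
    set n := Fintype.card V with hnd
    set n0 := Fintype.card V0 with hn0d
    set e := G.edgeSet.ncard
    set e0 := G0.edgeSet.ncard
    have h6 : 2 * e ≤ d * (n - 1) := by
      have : d * (n - 1) + d = d * n := by
        obtain ⟨m, hm⟩ := Nat.exists_eq_add_of_le hn
        rw [hm, Nat.add_sub_cancel_left]
        ring
      omega
    have h7 : d * n0 ≤ 2 * e0 := by omega
    have h8 : 2 * (e * (n0 - 1)) ≤ 2 * (e0 * (n - 1)) := by
      calc 2 * (e * (n0 - 1)) = (2 * e) * (n0 - 1) := by ring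
        _ ≤ (d * (n - 1)) * n0 := Nat.mul_le_mul h6 (Nat.sub_le _ _)
        _ = (d * n0) * (n - 1) := by ring
        _ ≤ (2 * e0) * (n - 1) := Nat.mul_le_mul_right _ h7
        _ = 2 * (e0 * (n - 1)) := by ring
    omega

end Pool.Agent.H942R3.KK
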